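import Mathlib
import Pool.Agent.helper66.JS.Defs

set_option autoImplicit false

/-!
# Real start times can be rounded down
-/

namespace Pool.Agent.helper66.JS

theorem feasible_iff (jobs : List Job) (L : ℕ) :
    Feasible (jobs, L) ↔ ∃ s, NSched jobs L s := by
  constructor
  · rintro ⟨s, hs⟩
    refine ⟨fun j i => ⌊s j i⌋₊, ?_, ?_, ?_⟩
    · intro j i m p h
      have h0 := hs.nonneg j i m p h
      have h1 := hs.bound j i m p h
      show ⌊s j i⌋₊ + p ≤ L
      rw [← Nat.floor_add_natCast h0]
      exact Nat.floor_le_of_le h1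
    · intro j i m p m' p' h h'
      have h0 := hs.nonneg j i m p h
      have h1 := hs.order j i m p m' p' h h'
      show ⌊s j i⌋₊ + p ≤ ⌊s j (i + 1)⌋₊
      rw [← Nat.floor_add_natCast h0]
      exact Nat.floor_le_floor h1
    · intro j i j' i' m p p' h h' hne
      have h0 := hs.nonneg j i m p h
      have h0' := hs.nonneg j' i' m p' h'
      show ⌊s j i⌋₊ + p ≤ ⌊s j' i'⌋₊ ∨ ⌊s j' i'⌋₊ + p' ≤ ⌊s j i⌋₊
      rw [← Nat.floor_add_natCast h0, ← Nat.floor_add_natCast h0']
      rcases hs.machine j i j' i' m p p' h h' hne with h2 | h2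
      · exact Or.inl (Nat.floor_le_floor h2)
      · exact Or.inr (Nat.floor_le_floor h2)
  · rintro ⟨s, hs⟩
    refine ⟨fun j i => (s j i : ℝ), ?_, ?_, ?_, ?_⟩
    · intro j i m p _
      exact Nat.cast_nonneg _
    · intro j i m p h
      have := hs.bound j i m p h
      exact_mod_cast this
    · intro j i m p m' p' h h'
      have := hs.order j i m p m' p' h h'
      exact_mod_cast this
    · intro j i j' i' m p p' h h' hne
      have := hs.machine j i j' i' m p p' h h' hne
      exact_mod_cast this

end Pool.Agent.helper66.JS
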