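import Mathlib
import Pool.Agent.helper66.JS.Defs

set_option autoImplicit false

/-!
# The order of the jobs does not matter
-/

namespace Pool.Agent.helper66.JS

private theorem perm_index {α : Type} {l l' : List α} (h : l.Perm l') :
    ∃ f : ℕ → ℕ, Function.Injective f ∧ ∀ j, l'[j]? = l[f j]? := by
  induction h with
  | nil => exact ⟨id, Function.injective_id, fun _ => rfl⟩
  | cons x _ ih =>
    obtain ⟨f, hf, h⟩ := ih
    refine ⟨fun j => match j with
      | 0 => 0
      | j + 1 => f j + 1, ?_, ?_⟩
    · intro a b hab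
      rcases a with _ | a <;> rcases b with _ | b
      · rfl
      · simp at hab
      · simp at hab
      · simp only [Nat.add_right_cancel_iff] at hab
        rw [hf hab]
    · intro j
      rcases j with _ | j
      · simp
      · simpa using h j
  | swap x y l =>
    refine ⟨Equiv.swap 0 1, (Equiv.swap 0 1).injective, ?_⟩
    intro j
    rcases j with _ | _ | j
    · rw [Equiv.swap_apply_left]
      simp
    · rw [Equiv.swap_apply_right]
      simp
    · rw [Equiv.swap_apply_of_ne_of_ne (by omega) (by omega)]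
      simp
  | trans _ _ ih1 ih2 =>
    obtain ⟨f, hf, h1⟩ := ih1
    obtain ⟨g, hg, h2⟩ := ih2
    exact ⟨f ∘ g, hf.comp hg, fun j => (h2 j).trans (h1 (g j))⟩

theorem feasible_perm {jobs jobs' : List Job} (h : jobs.Perm jobs') {L : ℕ}
    (hf : Feasible (jobs, L)) : Feasible (jobs', L) := by
  obtain ⟨f, hinj, hidx⟩ := perm_index h
  obtain ⟨s, hs⟩ := hf
  have key : ∀ j i m p, IsOp jobs' j i m p → IsOp jobs (f j) i m p := by
    rintro j i m p ⟨J, hJ, hi⟩
    exact ⟨J, by rw [← hidx]; exact hJ, hi⟩
  refine ⟨fun j i => s (f j) i, ?_, ?_, ?_, ?_⟩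
  · intro j i m p h
    exact hs.nonneg _ i m p (key _ _ _ _ h)
  · intro j i m p h
    exact hs.bound _ i m p (key _ _ _ _ h)
  · intro j i m p m' p' h h'
    exact hs.order _ i m p m' p' (key _ _ _ _ h) (key _ _ _ _ h')
  · intro j i j' i' m p p' h h' hne
    refine hs.machine _ i _ i' m p p' (key _ _ _ _ h) (key _ _ _ _ h') ?_
    intro he
    apply hne
    rw [Prod.mk.injEq] at he ⊢
    exact ⟨hinj he.1, he.2⟩

end Pool.Agent.helper66.JS
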