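import Mathlib
import Pool.Agent.helper66.JS.Defs

set_option autoImplicit false

/-!
# Size of the instances
-/

namespace Pool.Agent.helper66.JS

private theorem foldr_max_le {l : List ℕ} {b : ℕ} (h : ∀ x ∈ l, x ≤ b) : l.foldr max 0 ≤ b := by
  induction l with
  | nil => exact Nat.zero_le _
  | cons x l ih =>
    rw [List.foldr_cons]
    exact max_le (h x List.mem_cons_self) (ih fun y hy => h y (List.mem_cons_of_mem _ hy))

private theorem ops_ok (x : Let) : ∀ o ∈ opsOf x, o.1 < 3 ∧ 0 < o.2 ∧ o.2 ≤ 48 := by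
  cases x <;> simp [opsOf]

private theorem ops_chain (x : Let) : (opsOf x).IsChain (fun o o' => o.1 ≠ o'.1) := by
  cases x <;> simp [opsOf]

private theorem ops_head (x : Let) : ∀ o ∈ (opsOf x).head?, o.1 = 0 := by
  cases x <;> simp [opsOf]

private theorem ops_last (x : Let) (hx : three x = true) : ∀ o ∈ (opsOf x).getLast?, o.1 ≠ 0 := by
  cases x <;> simp [opsOf, three] at hx ⊢

private theorem ops_len (x : Let) : (opsOf x).length ≤ 3 := by
  cases x <;> simp [opsOf]

private theorem job_head (w : List Let) : ∀ o ∈ (jobOf w).head?, o.1 = 0 := by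
  cases w with
  | nil => simp [jobOf]
  | cons x w =>
    intro o ho
    apply ops_head x
    unfold jobOf at ho
    rw [List.flatMap_cons] at ho
    cases x <;> simpa [opsOf] using ho

private theorem job_chain (w : List Let) (hw : ∀ x ∈ w, three x = true) :
    (jobOf w).IsChain (fun o o' => o.1 ≠ o'.1) := by
  induction w with
  | nil => simp [jobOf]
  | cons x w ih =>
    have h1 := ih fun y hy => hw y (List.mem_cons_of_mem _ hy)
    have h2 : jobOf (x :: w) = opsOf x ++ jobOf w := by
      unfold jobOf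
      rw [List.flatMap_cons]
    rw [h2, List.isChain_append]
    refine ⟨ops_chain x, h1, ?_⟩
    intro a ha b hb
    have h3 := ops_last x (hw x List.mem_cons_self) a ha
    have h4 := job_head w b hb
    rw [h4]
    exact h3

private theorem job_len (w : List Let) : (jobOf w).length ≤ 3 * w.length := by
  induction w with
  | nil => simp [jobOf]
  | cons x w ih =>
    have h2 : jobOf (x :: w) = opsOf x ++ jobOf w := by
      unfold jobOf
      rw [List.flatMap_cons]
    rw [h2, List.length_append, List.length_cons]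
    have := ops_len x
    omega

private theorem three_letters (w : WD) : ∀ x ∈ w.letters, three x = true := by
  intro x hx
  unfold WD.letters at hx
  obtain ⟨q, -, rfl⟩ := List.mem_map.1 hx
  unfold WD.at
  split_ifs
  · rfl
  · rfl
  · rfl
  · rcases w.ud with _ | ⟨u, d⟩
    · rfl
    · dsimp only
      split_ifs <;> rfl

/-- a word of an instance is a single letter or comes from the word data -/
private theorem mem_words {W : List WD} {E : ℕ} {w : List Let} (h : w ∈ words W E) :
    (∃ x ∈ W, w = x.letters) ∨ ∃ x, w = [x] := by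
  unfold words at h
  simp only [List.mem_append, List.mem_map, List.mem_replicate, List.mem_cons,
    List.not_mem_nil, or_false] at h
  rcases h with ((((⟨x, hx, rfl⟩ | ⟨-, rfl⟩) | ⟨-, rfl⟩) | ⟨-, rfl⟩) | ⟨-, rfl⟩) | rfl | rfl
  · exact Or.inl ⟨x, hx, rfl⟩
  all_goals exact Or.inr ⟨_, rfl⟩

private theorem mem_jobOf {w : List Let} {o : ℕ × ℕ} (h : o ∈ jobOf w) :
    o.1 < 3 ∧ 0 < o.2 ∧ o.2 ≤ 48 := by
  unfold jobOf at h
  obtain ⟨x, -, hx⟩ := List.mem_flatMap.1 h
  exact ops_ok x o hx

private theorem mem_inst {W : List WD} {E : ℕ} {J : Job} (h : J ∈ (inst W E).1) :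
    J = [(1, 26)] ∨ J = [(2, 48)] ∨ ∃ w ∈ words W E, J = jobOf w := by
  unfold inst instJobs at h
  simp only [List.mem_cons, List.mem_map] at h
  rcases h with h | h | ⟨w, hw, rfl⟩
  · exact Or.inl h
  · exact Or.inr (Or.inl h)
  · exact Or.inr (Or.inr ⟨w, hw, rfl⟩)

theorem inst_valid (W : List WD) (E : ℕ) : Valid (inst W E) ∧ pmax (inst W E) ≤ 48 := by
  constructor
  · intro J hJ
    rcases mem_inst hJ with rfl | rfl | ⟨w, hw, rfl⟩
    · simp
    · simp
    · refine ⟨fun o ho => ⟨(mem_jobOf ho).1, (mem_jobOf ho).2.1⟩, ?_⟩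
      rcases mem_words hw with ⟨x, -, rfl⟩ | ⟨x, rfl⟩
      · exact job_chain _ (three_letters x)
      · have : jobOf [x] = opsOf x := by simp [jobOf]
        rw [this]
        exact ops_chain x
  · unfold pmax
    apply foldr_max_le
    intro p hp
    obtain ⟨o, ho, rfl⟩ := List.mem_map.1 hp
    obtain ⟨J, hJ, hoJ⟩ := List.mem_flatten.1 ho
    rcases mem_inst hJ with rfl | rfl | ⟨w, hw, rfl⟩
    · simp only [List.mem_cons, List.not_mem_nil, or_false] at hoJ
      subst hoJ
      norm_num
    · simp only [List.mem_cons, List.not_mem_nil, or_false] at hoJ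
      subst hoJ
      norm_num
    · exact (mem_jobOf hoJ).2.2

private theorem pos_lt (n : Net) {z s : ℕ} (hz : z < n.Zn) (hs : s ≤ 2 * n.a + 3) :
    z * n.zl + s < n.P := by
  unfold Net.P
  have h1 : (z + 1) * n.zl ≤ n.Zn * n.zl := Nat.mul_le_mul_right _ hz
  have h2 : s < n.zl := by
    unfold Net.zl
    omega
  calc z * n.zl + s < z * n.zl + n.zl := by omega
    _ = (z + 1) * n.zl := by ring
    _ ≤ _ := h1

private theorem net_K (n : Net) : ∀ w ∈ n.W, w.K ≤ 2 * n.P + 1 := by
  intro w hw
  unfold Net.W Net.WT Net.WR Net.WI Net.WF at hw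
  simp only [List.mem_append, List.mem_replicate, List.mem_flatMap, List.mem_range,
    List.mem_cons] at hw
  rcases hw with ((⟨-, rfl⟩ | ⟨i, -, -, rfl⟩) | ⟨z, hz, hw⟩) | ⟨z, hz, hw⟩
  · show n.P ≤ 2 * n.P + 1
    omega
  · exact le_refl _
  · rcases hw with rfl | rfl | ⟨s, hs, -, rfl⟩
    · show z * n.zl ≤ _
      have := pos_lt n hz (s := 0) (by omega)
      omega
    · show z * n.zl + 1 ≤ _
      have := pos_lt n hz (s := 1) (by omega)
      omega
    · show z * n.zl + th s ≤ _
      have := pos_lt n hz (s := th s) (by unfold th; omega)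
      omega
  · rcases hw with rfl | rfl | ⟨s, hs, -, rfl⟩
    · show n.P - 1 - z * n.zl ≤ _
      omega
    · show n.P - 1 - (z * n.zl + 1) ≤ _
      omega
    · show n.P - 1 - (z * n.zl + th s) ≤ _
      omega

theorem net_nmax (n : Net) (hZ : 0 < n.Zn) : nmax n.toInst ≤ 12 * n.P + 9 := by
  unfold nmax
  apply foldr_max_le
  intro l hl
  obtain ⟨J, hJ, rfl⟩ := List.mem_map.1 hl
  rcases mem_inst hJ with rfl | rfl | ⟨w, hw, rfl⟩
  · simp
  · simp
  · have h1 := job_len w
    rcases mem_words hw with ⟨x, hx, rfl⟩ | ⟨x, rfl⟩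
    · have h2 := net_K n x hx
      have h3 : x.letters.length = 2 * x.K + 1 := by
        unfold WD.letters
        simp
      omega
    · simp only [List.length_cons, List.length_nil] at h1
      omega

end Pool.Agent.helper66.JS
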